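import Mathlib

namespace Pool.Agent.Results.MP_db21b4_co.Q1

/-- `r` is an orientation of `G`. -/
def IsOrientation {V : Type} (G : SimpleGraph V) (r : V → V → Prop) : Prop :=
  (∀ u v, r u v → G.Adj u v) ∧ ∀ u v, G.Adj u v → (r u v ↔ ¬ r v u)

/-- The oriented graph `r` contains no copy of the oriented graph `b`. -/
def Free {W V : Type} (b : W → W → Prop) (r : V → V → Prop) : Prop :=
  ¬ ∃ f : W → V, Function.Injective f ∧ ∀ x y, b x y → r (f x) (f y)

noncomputable def DG {W V : Type} (G : SimpleGraph V) (b : W → W → Prop) : ℕ :=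
  {r | IsOrientation G r ∧ Free b r}.ncard

noncomputable def Dn {W : Type} (n : ℕ) (b : W → W → Prop) : ℕ :=
  ⨆ G : SimpleGraph (Fin n), DG G b

/-- The bowtie: centre `0`, triangles `0 1 2` and `0 3 4`. -/
def bowtie : SimpleGraph (Fin 5) :=
  SimpleGraph.fromEdgeSet {s(0, 1), s(0, 2), s(1, 2), s(0, 3), s(0, 4), s(3, 4)}

def ix (i j : Fin 5) : ℕ :=
  let a := min i.val j.val
  let b := max i.val j.val
  a * (9 - a) / 2 + (b - a - 1)

def tour (t : ℕ) (i j : Fin 5) : Bool :=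
  if i < j then t.testBit (ix i j) else if j < i then !t.testBit (ix i j) else false

def pr : Fin 10 → Fin 5 × Fin 5 :=
  ![(0, 1), (0, 2), (0, 3), (0, 4), (1, 2), (1, 3), (1, 4), (2, 3), (2, 4), (3, 4)]

theorem tour_inv : ∀ t : Fin 1024,
    ∑ k : Fin 10, (if tour t (pr k).1 (pr k).2 = true then 2 ^ k.val else 0) = t.val := by
  decide +kernel

theorem tour_or : ∀ t : Fin 1024, ∀ u v : Fin 5, (tour t u v = true → u ≠ v) ∧
    (u ≠ v → (tour t u v = true ↔ ¬ tour t v u = true)) := by decide +kernel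

def S (d : ℕ) : Finset (Fin 1024) :=
  Finset.univ.filter (fun t => ∀ v : Fin 5,
    (Finset.univ.filter (fun u => tour t u v = true)).card ≠ d)

theorem S3 : 128 < (S 3).card := by decide +kernel
theorem S1 : 128 < (S 1).card := by decide +kernel

theorem adj0 (x : Fin 5) (hx : x ≠ 0) : bowtie.Adj x 0 := by
  fin_cases x <;> simp [bowtie] at hx ⊢

theorem lower (b : Fin 5 → Fin 5 → Prop) (hb : IsOrientation bowtie b) (d : ℕ)
    (hd : {x | b x 0}.ncard = d) : (S d).card ≤ Dn 5 b := by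
  classical
  refine le_trans ?_ (le_ciSup (Set.finite_range _).bddAbove (⊤ : SimpleGraph (Fin 5)))
  unfold DG
  rw [← Set.ncard_coe_finset]
  refine Set.ncard_le_ncard_of_injOn (fun t u v => tour t.val u v = true) ?_ ?_ (Set.toFinite _)
  · intro t ht
    refine ⟨⟨fun u v h => (tour_or t u v).1 h, fun u v h => (tour_or t u v).2 h⟩, ?_⟩
    rintro ⟨f, hf, h⟩
    have hs : Function.Surjective f := Finite.surjective_of_injective hf
    apply (Finset.mem_filter.1 ht).2 (f 0)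
    rw [← hd, ← Set.ncard_image_of_injective _ hf, ← Set.ncard_coe_finset]
    congr 1
    ext u
    obtain ⟨x, rfl⟩ := hs u
    simp only [Finset.coe_filter, Finset.mem_univ, true_and, Set.mem_ofPred_eq,
      hf.mem_set_image]
    refine ⟨fun h1 => ?_, h x 0⟩
    have hne := (tour_or t _ _).1 h1
    have hx : x ≠ 0 := fun e => hne (by rw [e])
    by_contra h2
    have h3 : b 0 x := by
      by_contra h3
      exact h2 ((hb.2 x 0 (adj0 x hx)).2 h3)
    exact ((tour_or t _ _).2 hne).1 h1 (h 0 x h3)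
  · intro t _ t' _ h
    apply Fin.ext
    rw [← tour_inv t, ← tour_inv t']
    refine Finset.sum_congr rfl fun k _ => ?_
    have := congrFun (congrFun h (pr k).1) (pr k).2
    simp only [this]

def cand : List (Fin 5 × Fin 5 × Fin 5 × Fin 5 × Fin 5) :=
  [(0, 1, 2, 3, 4), (0, 1, 3, 2, 4), (0, 1, 4, 2, 3), (1, 0, 2, 3, 4), (1, 0, 3, 2, 4),
   (1, 0, 4, 2, 3), (2, 0, 1, 3, 4), (2, 0, 3, 1, 4), (2, 0, 4, 1, 3), (3, 0, 1, 2, 4),
   (3, 0, 2, 1, 4), (3, 0, 4, 1, 2), (4, 0, 1, 2, 3), (4, 0, 2, 1, 3), (4, 0, 3, 1, 2)]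

theorem dense1 : ∀ k1 k2 : Fin 10, ∃ q ∈ cand,
    Function.Injective ![q.1, q.2.1, q.2.2.1, q.2.2.2.1, q.2.2.2.2] ∧
    ∀ p ∈ [(q.1, q.2.1), (q.1, q.2.2.1), (q.2.1, q.2.2.1), (q.1, q.2.2.2.1), (q.1, q.2.2.2.2),
      (q.2.2.2.1, q.2.2.2.2)], ∃ k, k ≠ k1 ∧ k ≠ k2 ∧ (pr k = p ∨ pr k = p.swap) := by
  decide +kernel

theorem dense2 (k1 k2 : Fin 10) : ∃ a b c d e : Fin 5, Function.Injective ![a, b, c, d, e] ∧
    ∀ p ∈ [(a, b), (a, c), (b, c), (a, d), (a, e), (d, e)],
      ∃ k, k ≠ k1 ∧ k ≠ k2 ∧ (pr k = p ∨ pr k = p.swap) := by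
  obtain ⟨q, _, h⟩ := dense1 k1 k2
  exact ⟨_, _, _, _, _, h⟩

theorem dense (a : Fin 10 → Bool) (h : 8 ≤ (Finset.univ.filter (fun k => a k = true)).card) :
    ∃ f : Fin 5 → Fin 5, Function.Injective f ∧
      ∀ p ∈ [((0 : Fin 5), (1 : Fin 5)), (0, 2), (1, 2), (0, 3), (0, 4), (3, 4)],
      ∃ k, a k = true ∧ (pr k = (f p.1, f p.2) ∨ pr k = (f p.2, f p.1)) := by
  have h2 := Finset.card_filter_add_card_filter_not (s := (Finset.univ : Finset (Fin 10)))
    (fun k => a k = true)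
  rw [Finset.card_univ, Fintype.card_fin] at h2
  obtain ⟨T, hT, hc⟩ := Finset.exists_superset_card_eq
    (s := Finset.univ.filter (fun k => ¬ a k = true)) (n := 2) (by omega) (by simp)
  obtain ⟨k1, k2, _, rfl⟩ := Finset.card_eq_two.1 hc
  obtain ⟨x, b, c, d, e, hi, hp⟩ := dense2 k1 k2
  refine ⟨_, hi, fun p hp' => ?_⟩
  have : ((![x, b, c, d, e] : Fin 5 → Fin 5) p.1, (![x, b, c, d, e] : Fin 5 → Fin 5) p.2) ∈
      [(x, b), (x, c), (b, c), (x, d), (x, e), (d, e)] := by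
    simp only [List.mem_cons, List.not_mem_nil, or_false] at hp'
    rcases hp' with rfl | rfl | rfl | rfl | rfl | rfl <;> simp
  obtain ⟨k, n1, n2, hk⟩ := hp _ this
  refine ⟨k, ?_, hk⟩
  by_contra hn
  have := hT (Finset.mem_filter.2 ⟨Finset.mem_univ k, hn⟩)
  simp [n1, n2] at this

theorem pr_surj : ∀ e : Sym2 (Fin 5), ¬ e.IsDiag → ∃ k, s((pr k).1, (pr k).2) = e := by
  decide +kernel

theorem ex_le' : SimpleGraph.extremalNumber (Fintype.card (Fin 5)) bowtie ≤ 7 := by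
  classical
  rw [SimpleGraph.extremalNumber_le_iff]
  intro G _ hG
  by_contra hlt
  apply hG
  have h8 : 8 ≤ (Finset.univ.filter (fun k => decide (G.Adj (pr k).1 (pr k).2) = true)).card := by
    refine le_trans (by omega : 8 ≤ G.edgeFinset.card) ?_
    refine Finset.card_le_card_of_surjOn (fun k => s((pr k).1, (pr k).2)) ?_
    intro e he
    have he' : e ∈ G.edgeSet := by simpa using he
    obtain ⟨k, rfl⟩ := pr_surj e (G.not_isDiag_of_mem_edgeSet he')
    exact ⟨k, by simpa using he', rfl⟩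
  obtain ⟨f, hfi, hf⟩ := dense _ h8
  have key : ∀ p ∈ [((0 : Fin 5), (1 : Fin 5)), (0, 2), (1, 2), (0, 3), (0, 4), (3, 4)],
      G.Adj (f p.1) (f p.2) := by
    intro p hp
    obtain ⟨k, h1, h2 | h2⟩ := hf p hp
    · rw [h2] at h1; simpa using h1
    · rw [h2] at h1; exact (by simpa using h1 : G.Adj _ _).symm
  refine ⟨⟨⟨f, ?_⟩, hfi⟩⟩
  intro x y h
  have k1 := key (0, 1) (by simp); have k2 := key (0, 2) (by simp)
  have k3 := key (1, 2) (by simp); have k4 := key (0, 3) (by simp)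
  have k5 := key (0, 4) (by simp); have k6 := key (3, 4) (by simp)
  simp only [bowtie, SimpleGraph.fromEdgeSet_adj, Set.mem_insert_iff, Set.mem_singleton_iff,
    Sym2.eq_iff] at h
  rcases h.1 with h | h | h | h | h | h <;> rcases h with ⟨rfl, rfl⟩ | ⟨rfl, rfl⟩ <;>
    first | assumption | (apply SimpleGraph.Adj.symm; assumption)

theorem ex_le : SimpleGraph.extremalNumber 5 bowtie ≤ 7 := by
  have := ex_le'
  rwa [Fintype.card_fin] at this

theorem pw {e : ℕ} (h : e ≤ 7) : 2 ^ e ≤ 128 := Nat.pow_le_pow_right (n := 2) (by norm_num) h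

theorem result (b : Fin 5 → Fin 5 → Prop) (hb : IsOrientation bowtie b)
    (h3 : {x | b x 0}.ncard = 3 ∨ {x | b 0 x}.ncard = 3) :
    2 ^ SimpleGraph.extremalNumber 5 bowtie < Dn 5 b := by
  have h1 : 2 ^ SimpleGraph.extremalNumber 5 bowtie ≤ 128 :=
    pw ex_le
  rcases h3 with h | h
  · exact lt_of_le_of_lt h1 (lt_of_lt_of_le S3 (lower b hb 3 h))
  · have e : {x | b x 0}.ncard = 1 := by
      have hu : {x | b x 0} ∪ {x | b 0 x} = {0}ᶜ := by
        ext x
        simp only [Set.mem_union, Set.mem_ofPred_eq, Set.mem_compl_iff, Set.mem_singleton_iff]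
        constructor
        · rintro (h | h)
          · exact (hb.1 _ _ h).ne
          · exact (hb.1 _ _ h).ne'
        · intro hx
          by_cases h0 : b 0 x
          · exact Or.inr h0
          · exact Or.inl ((hb.2 x 0 (adj0 x hx)).2 h0)
      have hd : Disjoint {x | b x 0} {x | b 0 x} := by
        rw [Set.disjoint_left]
        intro x h1 h2
        exact (hb.2 x 0 (hb.1 _ _ h1)).1 h1 h2
      have := Set.ncard_union_eq hd
      rw [hu, h, Set.ncard_compl, Set.ncard_singleton] at this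
      rw [Nat.card_eq_fintype_card, Fintype.card_fin] at this
      generalize Set.ncard {x | b x 0} = z at this ⊢
      omega
    exact lt_of_le_of_lt h1 (lt_of_lt_of_le S1 (lower b hb 1 e))

end Pool.Agent.Results.MP_db21b4_co.Q1
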